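import Pool.Agent.helper48.AN.SpecP

namespace AN

open scoped Classical

noncomputable section

variable {p : ℕ} [hpf : Fact p.Prime] {k : Type} [Field k] [CharP k p] {N : ℕ}

theorem PM4_pow (c : BB k N) (m : Fin N →₀ ℕ) :
    MvPowerSeries.coeff (p • m) (c ^ p) = (MvPowerSeries.coeff m c) ^ p := by
  have : ExpChar k p := ExpChar.prime hpf.out
  rw [← MvPowerSeries.map_frobenius_expand p hpf.out.ne_zero, MvPowerSeries.coeff_map,
    MvPowerSeries.coeff_expand_smul]
  rfl

theorem PM4_pow0 (c : BB k N) (m : Fin N →₀ ℕ) {i : Fin N} (h : ¬ p ∣ m i) :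
    MvPowerSeries.coeff m (c ^ p) = 0 := by
  have : ExpChar k p := ExpChar.prime hpf.out
  rw [← MvPowerSeries.map_frobenius_expand p hpf.out.ne_zero, MvPowerSeries.coeff_map,
    MvPowerSeries.coeff_expand_of_not_dvd p hpf.out.ne_zero _ h, map_zero]

/-- The exponent `α`. -/
def PM4_al (α : Fin N → Fin p) : Fin N →₀ ℕ := Finsupp.equivFunOnFinite.symm fun i => (α i : ℕ)

theorem PM4_dec [IsAlgClosed k] (b : BB k N) : ∃ c : (Fin N → Fin p) → BB k N,
    b = ∑ α, c α ^ p * MvPowerSeries.monomial (PM4_al α) (1 : k) := by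
  have hroot : ∀ x : k, ∃ y : k, y ^ p = x := fun x => IsAlgClosed.exists_pow_nat_eq x hpf.out.pos
  choose rt hrt using hroot
  refine ⟨fun α => fun m => rt (MvPowerSeries.coeff (p • m + PM4_al α) b), ?_⟩
  ext d
  rw [map_sum]
  set β : Fin N → Fin p := fun i => ⟨d i % p, Nat.mod_lt _ hpf.out.pos⟩ with hβ
  set m : Fin N →₀ ℕ := Finsupp.equivFunOnFinite.symm fun i => d i / p with hm
  have hd : d = p • m + PM4_al β := by
    ext i
    simp only [hm, hβ, PM4_al, Finsupp.coe_add, Finsupp.coe_smul, Pi.add_apply, Pi.smul_apply,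
      Finsupp.equivFunOnFinite_symm_apply_apply, smul_eq_mul]
    exact (Nat.div_add_mod _ _).symm
  rw [Finset.sum_eq_single β]
  · rw [MvPowerSeries.coeff_mul_monomial, if_pos (by rw [hd]; exact le_add_self), mul_one]
    have h1 : d - PM4_al β = p • m := by
      nth_rewrite 1 [hd]
      exact add_tsub_cancel_right _ _
    rw [h1, PM4_pow]
    have h2 : MvPowerSeries.coeff m (fun m => rt (MvPowerSeries.coeff (p • m + PM4_al β) b) : BB k N)
      = rt (MvPowerSeries.coeff (p • m + PM4_al β) b) := rfl
    rw [h2, hrt, ← hd]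
  · intro α _ hα
    rw [MvPowerSeries.coeff_mul_monomial]
    split_ifs with hle
    · rw [mul_one]
      obtain ⟨i, hi⟩ : ∃ i, α i ≠ β i := by
        by_contra hcon
        push Not at hcon
        exact hα (funext hcon)
      refine PM4_pow0 _ _ (i := i) ?_
      intro hdv
      apply hi
      have h3 : (PM4_al α) i ≤ d i := hle i
      have h4 : (d - PM4_al α) i = d i - α i := rfl
      have h5 : (PM4_al α) i = α i := rfl
      rw [h4] at hdv
      rw [h5] at h3
      have h6 : d i ≡ (α i : ℕ) [MOD p] := by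
        exact ((Nat.modEq_iff_dvd' h3).2 hdv).symm
      apply Fin.ext
      show (α i : ℕ) = d i % p
      rw [h6, Nat.mod_eq_of_lt (α i).2]
    · rfl
  · intro h
    exact absurd (Finset.mem_univ _) h

theorem PM4 : PM4_stmt := by
  intro p _ k _ _ _ N K _ _ ψ D b
  set E : BB k N → K := fun b => D (ψ b) -
    ∑ i, D (ψ (MvPowerSeries.X i)) * ψ (MvPowerSeries.pderiv k i b) with hE
  suffices h : E b = 0 from sub_eq_zero.1 h
  have hadd : ∀ a b, E (a + b) = E a + E b := by
    intro a b
    simp only [hE, map_add, mul_add, Finset.sum_add_distrib]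
    ring
  have hmul : ∀ a b, E (a * b) = ψ a * E b + ψ b * E a := by
    intro a b
    simp only [hE, map_mul, Derivation.leibniz, map_add, smul_eq_mul, mul_sub, Finset.mul_sum]
    have : ∀ i, D (ψ (MvPowerSeries.X i)) * (ψ a * ψ (MvPowerSeries.pderiv k i b) +
        ψ b * ψ (MvPowerSeries.pderiv k i a)) =
        ψ a * (D (ψ (MvPowerSeries.X i)) * ψ (MvPowerSeries.pderiv k i b)) +
        ψ b * (D (ψ (MvPowerSeries.X i)) * ψ (MvPowerSeries.pderiv k i a)) := fun i => by ring
    simp only [this, Finset.sum_add_distrib]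
    ring
  have hone : E 1 = 0 := by
    simp [hE]
  have hX : ∀ j, E (MvPowerSeries.X j) = 0 := by
    intro j
    simp only [hE]
    rw [Finset.sum_eq_single j]
    · rw [MvPowerSeries.pderiv_X_self, map_one, mul_one, sub_self]
    · intro i _ hi
      rw [MvPowerSeries.pderiv_X_of_ne (Ne.symm hi), map_zero, mul_zero]
    · intro h
      exact absurd (Finset.mem_univ _) h
  have hpow0 : ∀ (a : BB k N) (n : ℕ), E a = 0 → E (a ^ n) = 0 := by
    intro a n ha
    induction n with
    | zero => rw [pow_zero, hone]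
    | succ n ih => rw [pow_succ, hmul, ha, ih, mul_zero, mul_zero, add_zero]
  have hp : ∀ a : BB k N, E (a ^ p) = 0 := by
    intro a
    have : ∀ n : ℕ, E (a ^ n) = n * ψ a ^ (n - 1) * E a := by
      intro n
      induction n with
      | zero => rw [pow_zero, hone]; simp
      | succ n ih =>
        rw [pow_succ, hmul, ih, map_pow]
        rcases n with _ | n
        · simp
        · simp only [Nat.add_sub_cancel, pow_succ]
          push_cast
          ring
    rw [this, CharP.cast_eq_zero, zero_mul, zero_mul]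
  have hmon : ∀ α : Fin N →₀ ℕ, E (MvPowerSeries.monomial α (1 : k)) = 0 := by
    intro α
    have h1 : MvPowerSeries.monomial α (1 : k) =
        ∏ i ∈ α.support, (MvPowerSeries.X i : BB k N) ^ α i := by
      rw [MvPowerSeries.monomial_one_eq]
      rfl
    rw [h1]
    have h2 : ∀ s : Finset (Fin N), E (∏ i ∈ s, (MvPowerSeries.X i : BB k N) ^ α i) = 0 := by
      intro s
      induction s using Finset.induction_on with
      | empty => rw [Finset.prod_empty, hone]
      | insert a s ha ih => rw [Finset.prod_insert ha, hmul, ih, hpow0 _ _ (hX a)]; simp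
    exact h2 _
  obtain ⟨c, hc⟩ := PM4_dec (p := p) b
  have hsum : ∀ (s : Finset (Fin N → Fin p)) (f : (Fin N → Fin p) → BB k N),
      E (∑ α ∈ s, f α) = ∑ α ∈ s, E (f α) := by
    intro s f
    induction s using Finset.induction_on with
    | empty => simp [hE]
    | insert a s ha ih => rw [Finset.sum_insert ha, Finset.sum_insert ha, hadd, ih]
  rw [hc, hsum]
  refine Finset.sum_eq_zero fun α _ => ?_
  rw [hmul, hp, hmon, mul_zero, mul_zero, add_zero]

end

end AN
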