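import Pool.Agent.helper48.AN.SpecD

namespace AN

open scoped Classical

theorem EA1 : EA1_stmt := by
  intro p _ K _ _ g H hg hN
  have hex : ∃ m, MN p H m = 0 := ⟨g, hN⟩
  have hm := Nat.find_spec hex
  have hmin : ∀ k, k < Nat.find hex → MN p H k ≠ 0 := fun k hk => Nat.find_min hex hk
  rcases h0 : Nat.find hex with _ | m
  · exfalso
    rw [h0] at hm
    have h1 : (1 : Matrix (Fin g) (Fin g) K) = 0 := hm
    have h2 := congrFun (congrFun h1 ⟨0, hg⟩) ⟨0, hg⟩
    simp at h2
  · rw [h0] at hm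
    have h1 : MN p H m ≠ 0 := hmin m (by omega)
    obtain ⟨i, j, hij⟩ : ∃ i j, MN p H m i j ≠ 0 := by
      by_contra hcon
      push Not at hcon
      exact h1 (Matrix.ext hcon)
    refine ⟨fun i => MN p H m i j, fun h => hij (congrFun h i), ?_⟩
    funext l
    have h2 : MN p H (m + 1) l j = 0 := by rw [hm]; rfl
    exact h2

end AN
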