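import Pool.Agent.helper48.AN.SpecF

namespace AN

open scoped Classical

noncomputable section

theorem FCR_pow {K : Type} [Field K] {f : LS K} (hf : f ∈ PS K) (i : ℕ) :
    f ^ i ∈ PS K ∧ cf (f ^ i) 0 = (cf f 0) ^ i := by
  induction i with
  | zero => exact ⟨by simpa using (one_mem_PS (R := K)), by simp [cf_one]⟩
  | succ i ih =>
    rw [pow_succ]
    refine ⟨PS_mul ih.1 hf, ?_⟩
    have h := cf_mul_lead ih.1 hf
    rw [add_zero] at h
    rw [h, ih.2, pow_succ]

theorem FCR_diff {K : Type} [Field K] {P Q u : LS K} (n : ℕ) {m : ℤ} (hm : 0 < m) (hP : P ∈ PS K)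
    (hQ : Q ∈ PS K) (hu : u ∈ PS K) (hPQ : Q - P ∈ GE K m) : Q ^ n * u - P ^ n * u ∈ GE K m ∧
      cf (Q ^ n * u - P ^ n * u) m = cf (Q - P) m * ((n * (cf P 0) ^ (n - 1)) * cf u 0) := by
  set G : LS K := ∑ i ∈ Finset.range n, Q ^ i * P ^ (n - 1 - i) with hG
  have h1 : Q ^ n * u - P ^ n * u = (Q - P) * (G * u) := by
    have := geom_sum₂_mul Q P n
    rw [← sub_mul, ← this, hG]
    ring
  have h2 : G ∈ PS K := Submodule.sum_mem _ fun i _ => PS_mul (FCR_pow hQ i).1 (FCR_pow hP _).1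
  have h3 : cf Q 0 = cf P 0 := by
    have := hPQ 0 hm
    rw [cf_sub] at this
    exact sub_eq_zero.1 this
  have h4 : cf G 0 = n * (cf P 0) ^ (n - 1) := by
    rw [hG, cf_sum]
    have : ∀ i ∈ Finset.range n, cf (Q ^ i * P ^ (n - 1 - i)) 0 = (cf P 0) ^ (n - 1) := by
      intro i hi
      have h := cf_mul_lead (FCR_pow hQ i).1 (FCR_pow hP (n - 1 - i)).1
      rw [add_zero] at h
      rw [h, (FCR_pow hQ i).2, (FCR_pow hP _).2, h3, ← pow_add]
      congr 1
      have := Finset.mem_range.1 hi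
      omega
    rw [Finset.sum_congr rfl this, Finset.sum_const, Finset.card_range, nsmul_eq_mul]
  have h5 : G * u ∈ PS K := PS_mul h2 hu
  rw [h1]
  refine ⟨?_, ?_⟩
  · have := GE_mul hPQ h5
    rwa [add_zero] at this
  · have h := cf_mul_lead hPQ h5
    rw [add_zero] at h
    have h' := cf_mul_lead h2 hu
    rw [add_zero] at h'
    rw [h, h', h4]

theorem FCR : FCR_stmt := by
  intro k _ _ n hn hnk y hy hy0
  set u : LS k := mono (n : ℤ) 1 * y with hu
  have huPS : u ∈ PS k := by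
    have := GE_mul (mono_mem_GE (R := k) (n : ℤ) 1) hy
    rwa [add_neg_cancel] at this
  have hu0 : cf u 0 ≠ 0 := by
    rw [hu, cf_mono_mul, one_mul, zero_sub]
    exact hy0
  obtain ⟨r0, hr0⟩ := IsAlgClosed.exists_pow_nat_eq ((cf u 0)⁻¹) hn
  have hr00 : r0 ≠ 0 := by
    rintro rfl
    rw [zero_pow hn.ne'] at hr0
    exact inv_ne_zero hu0 hr0.symm
  let T : ℕ → Type := fun m => {P : LS k // P ∈ PS k ∧ cf P 0 = r0 ∧
    ∀ j : ℤ, j ≤ m → cf (P ^ n * u) j = cf (1 : LS k) j}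
  have h0 : LS.C r0 ∈ PS k ∧ cf (LS.C r0) 0 = r0 ∧
      ∀ j : ℤ, j ≤ ((0 : ℕ) : ℤ) → cf ((LS.C r0) ^ n * u) j = cf (1 : LS k) j := by
    refine ⟨C_mem_PS _, by rw [cf_C, if_pos rfl], fun j hj => ?_⟩
    rw [← map_pow, cf_C_mul, cf_one]
    rcases lt_or_eq_of_le hj with h | h
    · rw [huPS j (by simpa using h), mul_zero, if_neg]
      intro h'
      rw [h'] at h
      simp at h
    · rw [h]
      simp only [Nat.cast_zero, if_true]
      rw [hr0, inv_mul_cancel₀ hu0]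
  have hstep : ∀ m : ℕ, ∀ P : T m, ∃ Q : T (m + 1), Q.1 - P.1 ∈ GE k ((m : ℤ) + 1) := by
    rintro m ⟨P, hP, hP0, hPj⟩
    set d : k := (n * r0 ^ (n - 1)) * cf u 0 with hd
    have hd0 : d ≠ 0 := mul_ne_zero (mul_ne_zero hnk (pow_ne_zero _ hr00)) hu0
    set c : k := (cf (1 : LS k) ((m : ℤ) + 1) - cf (P ^ n * u) ((m : ℤ) + 1)) / d with hc
    set Q : LS k := P + mono ((m : ℤ) + 1) c with hQ
    have hQP : Q - P = mono ((m : ℤ) + 1) c := by rw [hQ]; ring
    have hmem : Q - P ∈ GE k ((m : ℤ) + 1) := by rw [hQP]; exact mono_mem_GE _ _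
    have hQPS : Q ∈ PS k := Submodule.add_mem _ hP
      (GE_mono (by omega : (0 : ℤ) ≤ (m : ℤ) + 1) (mono_mem_GE _ _))
    obtain ⟨e1, e2⟩ := FCR_diff n (by omega : (0 : ℤ) < (m : ℤ) + 1) hP hQPS huPS hmem
    refine ⟨⟨Q, hQPS, ?_, ?_⟩, hmem⟩
    · rw [hQ, cf_add, cf_mono, if_neg (by omega), add_zero, hP0]
    · intro j hj
      push_cast at hj
      rcases lt_or_eq_of_le hj with h | h
      · have := e1 j h
        rw [cf_sub] at this
        rw [sub_eq_zero.1 this]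
        exact hPj j (by omega)
      · rw [h]
        rw [cf_sub, hQP, cf_mono, if_pos rfl, hP0, ← hd, hc, div_mul_cancel₀ _ hd0] at e2
        linear_combination e2
  choose F hF using hstep
  let P : (m : ℕ) → T m := fun m => Nat.rec (motive := T) ⟨LS.C r0, h0⟩ (fun m P => F m P) m
  have hPs : ∀ m : ℕ, (P (m + 1)).1 - (P m).1 ∈ GE k ((m : ℤ) + 1) := fun m => hF m (P m)
  have hst : ∀ a m : ℕ, a ≤ m → cf (P m).1 a = cf (P a).1 a := by
    intro a m ham
    induction m, ham using Nat.le_induction with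
    | base => rfl
    | succ m ham ih =>
      have := hPs m a (by omega)
      rw [cf_sub] at this
      rw [sub_eq_zero.1 this, ih]
  let r : LS k := ofFun (fun j => cf (P j.toNat).1 j) 0 fun j hj => (P j.toNat).2.1 j hj
  have hr : r ∈ PS k := fun j hj => (P j.toNat).2.1 j hj
  have hrP : ∀ m : ℕ, r - (P m).1 ∈ GE k ((m : ℤ) + 1) := by
    intro m j hj
    rw [cf_sub]
    show cf (P j.toNat).1 j - cf (P m).1 j = 0
    rcases lt_or_ge j 0 with h | h
    · rw [(P j.toNat).2.1 j h, (P m).2.1 j h, sub_zero]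
    · obtain ⟨a, rfl⟩ := Int.eq_ofNat_of_zero_le h
      have h2 : cf (P (a : ℤ).toNat).1 (a : ℤ) = cf (P m).1 (a : ℤ) :=
        (hst a m (by omega)).symm
      rw [h2, sub_self]
  have hr1 : r ^ n * u = 1 := by
    ext j
    rcases lt_or_ge j 0 with h | h
    · rw [PS_mul (FCR_pow hr n).1 huPS j h, cf_one, if_neg (by omega)]
    · have h1 : ((j.toNat : ℕ) : ℤ) = j := Int.toNat_of_nonneg h
      obtain ⟨e1, -⟩ := FCR_diff n (by omega : (0 : ℤ) < ((j.toNat : ℕ) : ℤ) + 1)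
        (P j.toNat).2.1 hr huPS (hrP j.toNat)
      have e2 := e1 j (by omega)
      rw [cf_sub] at e2
      rw [sub_eq_zero.1 e2]
      exact (P j.toNat).2.2.2 j (by omega)
  refine ⟨mono 1 1 * r, ?_, ?_, ?_⟩
  · have := GE_mul (mono_mem_GE (R := k) 1 1) hr
    rwa [add_zero] at this
  · rw [cf_mono_mul, one_mul, sub_self]
    intro h
    have h2 := cf_mul_lead (FCR_pow hr n).1 huPS
    rw [add_zero, hr1, (FCR_pow hr n).2, h, zero_pow hn.ne', zero_mul, cf_one, if_pos rfl] at h2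
    exact one_ne_zero h2
  · have h3 : ∀ j : ℕ, (mono 1 (1 : k)) ^ j = mono (j : ℤ) 1 := by
      intro j
      induction j with
      | zero =>
        rw [pow_zero, Nat.cast_zero, ← C_eq_mono, map_one]
      | succ j ih =>
        rw [pow_succ, ih, mono_mul_mono, mul_one]
        congr 1
    rw [mul_pow, h3]
    rw [hu] at hr1
    calc mono (n : ℤ) 1 * r ^ n * y = r ^ n * (mono (n : ℤ) 1 * y) := by ring
      _ = 1 := hr1

end

end AN
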